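import Pool.Agent.T2h81.LD.H7
import Pool.Agent.T2h81.LD.H5

set_option autoImplicit false

/-!
# Gaps of record size in the sequence `√p` around several sums `c √a + d √b` at the same time

Let `F(Z) = log Z (log₂ Z)² log₄ Z / (log₃ Z)²` (the order of the largest known prime gaps) and
`A_n = √p_{n+1} - √p_n`. Let `r ≥ 1` and let `c₁, …, c_r, d₁, …, d_r` be positive real numbers; if `r ≥ 2`, let
the products `c_j d_j` be linearly independent over `ℚ` and in the ring generated by the real algebraic numbers and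
`e`, or satisfy the Diophantine condition below. Let `0 < δ < 1 / 2` and `ε > 0`. There are `κ, Z₀ > 0` such that for
all `Z ≥ Z₀` and ALL finite sets `A, B ⊂ [Z, 2 Z]` of real numbers whose elements have mutual distances at least `1`,
with `|A| |B| ≥ Z ^ (3 / 2 + δ)`: for at least `|A| |B| Z ^ (-ε)` of the pairs `(a, b) ∈ A × B` each of the `r` numbers
`x_j = c_j √a + d_j √b` lies between the square roots of two consecutive primes `p_n < p_{n+1}` at distance more than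
`κ F(Z) / x_j` from both of them, so that `A_n > 2 κ F(Z) / x_j`; no larger values of `A_n` are known.

Proof. `x_j ²` is a sum of `2 c_j d_j √(a b)`, a function of `a` and a function of `b`. The bilinear sums for smooth
phases of the starting library (`Y565.RG.gen_bound`) bound the exponential sums of all integer combinations of the
`x_j ²`, and its joint covering criterion (`Y961.JR.crit_scaledJ`) applies.
-/

namespace Pool.Agent.Results.MP_82fd4a_nt.RecordSumsOfSquareRoots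

open Finset

/-- the size of the largest known prime gaps below `Z` -/
noncomputable def F (Z : ℝ) : ℝ :=
  Real.log Z * (Real.log (Real.log Z)) ^ 2 * Real.log (Real.log (Real.log (Real.log Z))) /
    (Real.log (Real.log (Real.log Z))) ^ 2

/-- `x` lies between the square roots of two consecutive primes, at distance more than `t` from both; here
`Nat.nth Nat.Prime n` is the prime with index `n`, counted from `0` -/
def InGap (x t : ℝ) : Prop :=
  ∃ n : ℕ, Real.sqrt (Nat.nth Nat.Prime n) + t < x ∧ x + t < Real.sqrt (Nat.nth Nat.Prime (n + 1))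

/-- for some `c₀ > 0`, `τ ≥ 0` all nontrivial integer combinations of the `β j` with coefficients at most `H` in
absolute value are at least `c₀ H ^ (-τ)` in absolute value -/
def Diophantine {r : ℕ} (β : Fin r → ℝ) : Prop :=
  ∃ c₀ τ : ℝ, 0 < c₀ ∧ 0 ≤ τ ∧ ∀ (H : ℝ) (h : Fin r → ℤ), h ≠ 0 → (∀ j, |(h j : ℝ)| ≤ H) →
    c₀ * H ^ (-τ) ≤ |∑ j, (h j : ℝ) * β j|

/-- the `β j` are linearly independent over `ℚ` and lie in the ring generated by the real algebraic numbers and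
`e` -/
def AlgebraicOrE {r : ℕ} (β : Fin r → ℝ) : Prop :=
  LinearIndependent ℚ β ∧ ∀ j, β j ∈ Algebra.adjoin ℚ ({x : ℝ | IsAlgebraic ℚ x} ∪ {Real.exp 1})

/-- a set of real numbers in `[Z, 2 Z]` with mutual distances at least `1` -/
def Spaced (A : Finset ℝ) (Z : ℝ) : Prop :=
  (∀ a ∈ A, Z ≤ a ∧ a ≤ 2 * Z) ∧ ∀ a ∈ A, ∀ a' ∈ A, a ≠ a' → 1 ≤ |a - a'|

theorem result (r : ℕ) (hr : 1 ≤ r) (c d : Fin r → ℝ) (hc : ∀ j, 0 < c j) (hd : ∀ j, 0 < d j)
    (hβ : r = 1 ∨ AlgebraicOrE (fun j => c j * d j) ∨ Diophantine (fun j => c j * d j))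
    (δ : ℝ) (hδ : 0 < δ) (hδ1 : δ < 1 / 2) (ε : ℝ) (hε : 0 < ε) :
    ∃ κ : ℝ, 0 < κ ∧ ∃ Z₀ : ℝ, ∀ Z : ℝ, Z₀ ≤ Z → ∀ A B : Finset ℝ, Spaced A Z → Spaced B Z →
      Z ^ (3 / 2 + δ) ≤ (A.card : ℝ) * B.card →
      (A.card : ℝ) * B.card * Z ^ (-ε) ≤
        (({p : ℝ × ℝ | p.1 ∈ A ∧ p.2 ∈ B ∧ ∀ j, InGap (c j * Real.sqrt p.1 + d j * Real.sqrt p.2)
          (κ * F Z / (c j * Real.sqrt p.1 + d j * Real.sqrt p.2))}.ncard : ℕ) : ℝ) := by
  classical
  obtain ⟨c₁, τ, hc₁, hτ, hdio⟩ : ∃ c₁ τ : ℝ, 0 < c₁ ∧ 0 ≤ τ ∧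
      Pool.Agent.T2h81.LD.LinDio (fun j => c j * d j) c₁ τ := by
    rcases hβ with h1 | ⟨h1, h2⟩ | ⟨c₁, τ, h1, h2, h3⟩
    · subst h1
      have h2 : c 0 * d 0 ≠ 0 := (mul_pos (hc 0) (hd 0)).ne'
      exact ⟨_, 0, abs_pos.2 h2, le_rfl, Pool.Agent.T2h81.LD.linDio_one (fun j => c j * d j) h2⟩
    · refine Pool.Agent.T2h81.LD.linDio_alg _ h2 ?_
      intro h hh h0
      apply hh
      have h3 := Fintype.linearIndependent_iff.1 h1 (fun j => (h j : ℚ)) (by
        rw [← h0]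
        apply Finset.sum_congr rfl
        intro j _
        rw [Algebra.smul_def]
        simp)
      funext j
      have := h3 j
      exact_mod_cast this
    · exact ⟨c₁, τ, h1, h2, h3⟩
  obtain ⟨κ, hκ, hev⟩ := Pool.Agent.T2h81.LD.sqrt_sums_rec r hr c d hc hd c₁ τ hc₁ hτ hdio δ hδ hδ1
    ε hε
  obtain ⟨Z₀, h0⟩ := Filter.eventually_atTop.mp (hev.and Pool.Agent.T2h81.LD.ev_ff)
  obtain ⟨m, hm, hmc⟩ : ∃ m : ℝ, 0 < m ∧ ∀ j, m ≤ c j := by
    have hne : (Finset.univ : Finset (Fin r)).Nonempty := ⟨⟨0, hr⟩, Finset.mem_univ _⟩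
    refine ⟨Finset.univ.inf' hne c, ?_, fun j => Finset.inf'_le _ (Finset.mem_univ j)⟩
    rw [Finset.lt_inf'_iff]
    exact fun j _ => hc j
  refine ⟨κ, hκ, max (max Z₀ 2) ((2 / m) ^ 2), fun Z hZ A B hA hB hAB => ?_⟩
  have hZ2 : 2 ≤ Z := (le_max_right _ _).trans ((le_max_left _ _).trans hZ)
  have hZm : (2 / m) ^ 2 ≤ Z := (le_max_right _ _).trans hZ
  obtain ⟨h0, hF⟩ := h0 Z ((le_max_left _ _).trans ((le_max_left _ _).trans hZ))
  have hF0 : 0 ≤ F Z := hF.1
  refine (h0 A B hA.1 hA.2 hB.1 hB.2 hAB).trans ?_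
  rw [Nat.cast_le, ← Set.ncard_coe_finset]
  apply Set.ncard_le_ncard
  · intro p hp
    rw [Finset.mem_coe, Finset.mem_filter, Finset.mem_product] at hp
    obtain ⟨⟨h1, h2⟩, h3⟩ := hp
    refine ⟨h1, h2, fun j => ?_⟩
    have ha := (hA.1 _ h1).1
    have hcj := hc j
    have hdj := hd j
    have hsZ : 2 / m ≤ Real.sqrt Z := Real.le_sqrt_of_sq_le hZm
    have hsa : Real.sqrt Z ≤ Real.sqrt p.1 := Real.sqrt_le_sqrt ha
    have hx2 : 2 ≤ c j * Real.sqrt p.1 + d j * Real.sqrt p.2 := by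
      have e1 : m * (2 / m) ≤ c j * Real.sqrt p.1 :=
        mul_le_mul (hmc j) (hsZ.trans hsa) (by positivity) hcj.le
      have e2 : m * (2 / m) = 2 := by field_simp
      have e3 : 0 ≤ d j * Real.sqrt p.2 := by positivity
      linarith
    exact Pool.Agent.T2h81.LD.inGap_of_far _ _ hx2 (by positivity) (h3 j)
  · apply Set.Finite.subset (Finset.finite_toSet (A ×ˢ B))
    rintro p ⟨h1, h2, -⟩
    exact Finset.mem_coe.2 (Finset.mem_product.2 ⟨h1, h2⟩)

end Pool.Agent.Results.MP_82fd4a_nt.RecordSumsOfSquareRoots
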