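import Pool.Agent.T2h81.LD.H9
import Pool.Agent.T2h81.LD.H5

set_option autoImplicit false

/-!
# Both ends of the Andrica interval `(√n, √n + 1)` in long gaps of the sequence `√p`

Let `A_k = √p_{k+1} - √p_k`. Let `r ≥ 1` and let `c₁, …, c_r > 0` and `d₁, …, d_r` be real numbers with the property
that no nontrivial integer combination of the pairs `(c_j², c_j d_j)` lies in `ℤ × {0}`; suppose moreover that
`r = 1`, `c₁ = 1` (and `d₁ ≠ 0` arbitrary), or that the numbers `c_j²`, `c_j d_j` lie in the ring generated by the real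
algebraic numbers and `e`, or that the Diophantine condition below holds. Let `0 < ε ≤ 1 / 2`. There are `K, M₀ > 0`
such that for `M ≥ M₀`, `M ^ (1 / 2 + ε) ≤ N ≤ M` and `1 ≤ lam ≤ (log log M) / K` at least `N exp (- exp (K lam))`
integers `n ∈ (M, M + N]` have the following property: each of the `r + 1` numbers `x = √n` and
`x = c_j √n + d_j` lies between the square roots of two consecutive primes at distance more than `lam (log M) / x`
from both of them. The average of `A_k` near `x` is of the order `(log M) / x`.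

With `r = 1`, `c = d = 1`: Andrica's conjecture says that there is a square root of a prime in `(√n, √n + 1)` for
every prime `n`; here both ends `√n` and `√n + 1` lie in gaps `lam` times longer than the average, for a positive
proportion of all `n`, also in the short intervals `(M, M + M ^ (1 / 2 + ε)]`.

Proof. The squares `(c_j √n + d_j)² = c_j² n + 2 c_j d_j √n + d_j²` have small exponential sums on residue classes by
the inequality of Kusmin and Landau; the positive proportion criterion `T2h81.LD.crit_ld1J` applies.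
-/

namespace Pool.Agent.Results.MP_82fd4a_nt.ShiftedSquareRoots

open Finset

/-- `x` lies between the square roots of two consecutive primes, at distance more than `t` from both; here
`Nat.nth Nat.Prime k` is the prime with index `k`, counted from `0` -/
def InGap (x t : ℝ) : Prop :=
  ∃ k : ℕ, Real.sqrt (Nat.nth Nat.Prime k) + t < x ∧ x + t < Real.sqrt (Nat.nth Nat.Prime (k + 1))

/-- if the integer vector `h ≠ 0` has `∑ h_j c_j² ∈ ℤ`, then `∑ h_j c_j d_j ≠ 0` -/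
def Independent {r : ℕ} (c d : Fin r → ℝ) : Prop :=
  ∀ h : Fin r → ℤ, h ≠ 0 → (∃ k : ℤ, ∑ j, (h j : ℝ) * c j ^ 2 = k) → ∑ j, (h j : ℝ) * (c j * d j) ≠ 0

/-- all `c_j²` and `c_j d_j` lie in the ring generated by the real algebraic numbers and `e` -/
def AlgebraicOrE {r : ℕ} (c d : Fin r → ℝ) : Prop :=
  (∀ j, c j ^ 2 ∈ Algebra.adjoin ℚ ({x : ℝ | IsAlgebraic ℚ x} ∪ {Real.exp 1})) ∧
    ∀ j, c j * d j ∈ Algebra.adjoin ℚ ({x : ℝ | IsAlgebraic ℚ x} ∪ {Real.exp 1})

/-- for some `c₀ > 0`, `τ ≥ 0`: if `h ≠ 0` is an integer vector with entries at most `H` in absolute value, then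
either `∑ h_j c_j²` has distance at least `c₀ H ^ (-τ)` from all integers, or it is an integer and
`|∑ h_j c_j d_j| ≥ c₀ H ^ (-τ)` -/
def Diophantine {r : ℕ} (c d : Fin r → ℝ) : Prop :=
  ∃ c₀ τ : ℝ, 0 < c₀ ∧ 0 ≤ τ ∧ ∀ (H : ℝ) (h : Fin r → ℤ), h ≠ 0 → (∀ j, |(h j : ℝ)| ≤ H) →
    (∀ k : ℤ, c₀ * H ^ (-τ) ≤ |∑ j, (h j : ℝ) * c j ^ 2 - k|) ∨
    ((∃ k : ℤ, ∑ j, (h j : ℝ) * c j ^ 2 = k) ∧ c₀ * H ^ (-τ) ≤ |∑ j, (h j : ℝ) * (c j * d j)|)

theorem result (r : ℕ) (hr : 1 ≤ r) (c d : Fin r → ℝ) (hc : ∀ j, 0 < c j)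
    (hcd : (r = 1 ∧ ∀ j, c j = 1 ∧ d j ≠ 0) ∨ (Independent c d ∧ AlgebraicOrE c d) ∨ Diophantine c d)
    (ε : ℝ) (hε : 0 < ε) (hε1 : ε ≤ 1 / 2) :
    ∃ K : ℝ, 0 < K ∧ ∃ M₀ : ℝ, ∀ M : ℝ, M₀ ≤ M → ∀ N : ℝ, M ^ (1 / 2 + ε) ≤ N → N ≤ M →
      ∀ lam : ℝ, 1 ≤ lam → lam ≤ Real.log (Real.log M) / K →
      N * Real.exp (-Real.exp (K * lam)) ≤
        (({n : ℕ | M < n ∧ (n : ℝ) ≤ M + N ∧ InGap (Real.sqrt n) (lam * Real.log M / Real.sqrt n) ∧
          ∀ j, InGap (c j * Real.sqrt n + d j)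
            (lam * Real.log M / (c j * Real.sqrt n + d j))}.ncard : ℕ) : ℝ) := by
  classical
  obtain ⟨c₀, τ, hc₀, hτ, hdio⟩ : ∃ c₀ τ : ℝ, 0 < c₀ ∧ 0 ≤ τ ∧
      Pool.Agent.T2h81.LD.ShiftDio c d c₀ τ := by
    rcases hcd with ⟨h1, h2⟩ | ⟨h1, h2⟩ | ⟨c₀, τ, h1, h2, h3⟩
    · subst h1
      obtain ⟨h3, h4⟩ := h2 0
      refine ⟨|d 0|, 0, abs_pos.2 h4, le_rfl, ?_⟩
      intro H h hh hH
      right
      have h00 : h 0 ≠ 0 := by
        intro h5
        apply hh
        funext j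
        rw [Subsingleton.elim j 0, h5]
        rfl
      have h6 : (1:ℝ) ≤ |(h 0 : ℝ)| := by
        have := Int.one_le_abs h00
        exact_mod_cast this
      rw [Fin.sum_univ_one, Fin.sum_univ_one, h3]
      refine ⟨⟨h 0, by ring⟩, ?_⟩
      rw [neg_zero, Real.rpow_zero, mul_one, one_mul, abs_mul]
      have := abs_nonneg (d 0)
      nlinarith
    · exact Pool.Agent.T2h81.LD.shiftDio_alg c d h2.1 h2.2 h1
    · exact ⟨c₀, τ, h1, h2, h3⟩
  obtain ⟨K, hK, hev⟩ := Pool.Agent.T2h81.LD.shifts_ld r hr c d hc c₀ τ hc₀ hτ hdio ε hε hε1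
  obtain ⟨M₀, h0⟩ := Filter.eventually_atTop.mp hev
  refine ⟨K, by linarith, max M₀ 4, fun M hM N hN1 hN2 lam hlam hlamM => ?_⟩
  have hM4 : 4 ≤ M := (le_max_right _ _).trans hM
  have hlog : 0 < Real.log M := Real.log_pos (by linarith)
  have hN0 : 0 < N := lt_of_lt_of_le (Real.rpow_pos_of_pos (by linarith) _) hN1
  have hex : Real.exp (K * lam) ≤ Real.log M := by
    rw [le_div_iff₀ (by linarith)] at hlamM
    rw [← Real.exp_log hlog]
    apply Real.exp_le_exp.2
    linarith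
  obtain ⟨hx, hmain⟩ := h0 M ((le_max_left _ _).trans hM) N hN1 hN2 lam hlam hex
  refine hmain.trans ?_
  rw [Nat.cast_le, ← Set.ncard_coe_finset]
  apply Set.ncard_le_ncard
  · intro n hn
    rw [Finset.mem_coe, Finset.mem_filter] at hn
    obtain ⟨h1, h2, h3⟩ := hn
    have h1' := Finset.mem_Ioc.1 h1
    rw [Nat.floor_lt (by linarith), Nat.le_floor_iff (by linarith)] at h1'
    have hn2 : 2 ≤ Real.sqrt n := by
      apply Real.le_sqrt_of_sq_le
      calc (2:ℝ) ^ 2 = 4 := by norm_num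
        _ ≤ n := by linarith [h1'.1]
    refine ⟨h1'.1, h1'.2, ?_, fun j => ?_⟩
    · exact Pool.Agent.T2h81.LD.inGap_of_far _ _ hn2 (by positivity) h2
    · have hxj := hx n h1 j
      exact Pool.Agent.T2h81.LD.inGap_of_far _ _ hxj (by positivity) (h3 j)
  · apply Set.Finite.subset (Finset.finite_toSet (Finset.Ioc ⌊M⌋₊ ⌊M + N⌋₊))
    rintro n ⟨h1, h2, -⟩
    rw [Finset.mem_coe, Finset.mem_Ioc, Nat.floor_lt (by linarith), Nat.le_floor_iff (by linarith)]
    exact ⟨h1, h2⟩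

end Pool.Agent.Results.MP_82fd4a_nt.ShiftedSquareRoots
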